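import Pool.Agent.Lib.MP_af3a4a_an.P1.H21.VTab1
import Pool.Agent.Lib.MP_af3a4a_an.P1.H21.VTab2
import Pool.Agent.Lib.MP_af3a4a_an.P1.H21.VTab3
import Pool.Agent.Lib.MP_af3a4a_an.P1.H21.VTab4
import Pool.Agent.Lib.MP_af3a4a_an.P1.H21.VTab5
import Pool.Agent.Lib.MP_af3a4a_an.P1.H21.VTab6
import Pool.Agent.Lib.MP_af3a4a_an.P1.H21.VTab7

/-!
# VTAIL, final statement (helper21, council 2)

`vtk e N₀ g k` hands an upper bound `V` (mantissa `2^40`) of `((N+1)/R) ∫_{(g/64) R}^R |q|`, valid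
for all `R ≥ 1024/e`, `N ≥ N₀`, to the continuation `k`.  It fails (is `false`) for `e > 424`.
-/

set_option autoImplicit false

namespace Pool.Agent.Lib.MP_af3a4a_an.P1.H21

open MeasureTheory
open Pool.Agent.Lib.MP_af3a4a_an.SV (uu av)
open Pool.Agent.Lib.MP_af3a4a_an.P1.H80
open Pool.Agent.Lib.MP_af3a4a_an.P1.CHK.Arith

/-- all rows, `(e, r, row)`, `e` increasing -/
def tabs : List (ℕ × ℕ × List (ℕ × ℕ × ℕ × ℕ × ℕ × ℕ)) := [
  (172, 6242685, t172),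
  (176, 6100805, t176),
  (184, 5835553, t184),
  (192, 5592405, t192),
  (200, 5368709, t200),
  (208, 5162220, t208),
  (216, 4971026, t216),
  (224, 4793490, t224),
  (232, 4628197, t232),
  (240, 4473924, t240),
  (248, 4329604, t248),
  (256, 4194304, t256),
  (264, 4067203, t264),
  (272, 3947580, t272),
  (280, 3834792, t280),
  (288, 3728270, t288),
  (296, 3627506, t296),
  (304, 3532045, t304),
  (312, 3441480, t312),
  (320, 3355443, t320),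
  (328, 3273603, t328),
  (336, 3195660, t336),
  (344, 3121342, t344),
  (352, 3050402, t352),
  (360, 2982616, t360),
  (368, 2917776, t368),
  (376, 2855696, t376),
  (384, 2796202, t384),
  (392, 2739137, t392),
  (400, 2684354, t400),
  (408, 2631720, t408),
  (412, 2606169, t412),
  (416, 2581110, t416),
  (420, 2556528, t420),
  (424, 2532409, t424)]

/-- search of the first row with `e ≤ e'` -/
def vfind (e N g : ℕ) (k : ℕ → Bool) : List (ℕ × ℕ × List (ℕ × ℕ × ℕ × ℕ × ℕ × ℕ)) → Bool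
  | [] => false
  | (e', _, rows) :: t => bif Nat.ble e e' then ev (vt N g 136 rows) k else vfind e N g k t

/-- the tail for `R ≥ 1024/e`, `N` and more -/
def vtk (e N g : ℕ) (k : ℕ → Bool) : Bool := vfind e N g k tabs

theorem tabs_ok : ∀ x ∈ tabs, x.2.1 * x.1 ≤ 1073741824 ∧ 0 < x.1 ∧
    chk x.2.1 136 x.2.2 = true := by
  unfold tabs
  simp only [List.forall_mem_cons]
  refine ⟨⟨by norm_num, by norm_num, c172⟩, ⟨by norm_num, by norm_num, c176⟩, ⟨by norm_num, by norm_num, c184⟩, ⟨by norm_num, by norm_num, c192⟩, ⟨by norm_num, by norm_num, c200⟩, ⟨by norm_num, by norm_num, c208⟩, ⟨by norm_num, by norm_num, c216⟩, ⟨by norm_num, by norm_num, c224⟩, ⟨by norm_num, by norm_num, c232⟩, ⟨by norm_num, by norm_num, c240⟩, ⟨by norm_num, by norm_num, c248⟩, ⟨by norm_num, by norm_num, c256⟩, ⟨by norm_num, by norm_num, c264⟩, ⟨by norm_num, by norm_num, c272⟩, ⟨by norm_num, by norm_num, c280⟩, ⟨by norm_num, by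 norm_num, c288⟩, ⟨by norm_num, by norm_num, c296⟩, ⟨by norm_num, by norm_num, c304⟩, ⟨by norm_num, by norm_num, c312⟩, ⟨by norm_num, by norm_num, c320⟩, ⟨by norm_num, by norm_num, c328⟩, ⟨by norm_num, by norm_num, c336⟩, ⟨by norm_num, by norm_num, c344⟩, ⟨by norm_num, by norm_num, c352⟩, ⟨by norm_num, by norm_num, c360⟩, ⟨by norm_num, by norm_num, c368⟩, ⟨by norm_num, by norm_num, c376⟩, ⟨by norm_num, by norm_num, c384⟩, ⟨by norm_num, by norm_num, c392⟩, ⟨by norm_num, by norm_num, c400⟩, ⟨by norm_num, by norm_num, c408⟩, ⟨by norm_num, by norm_num, c412⟩, ⟨by norm_num, by norm_num, c416⟩, ⟨by norm_num, by norm_num, c420⟩, ⟨by norm_num, by norm_num, c424⟩, ?_⟩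
  intro x hx
  cases hx

theorem vfind_sound {e N₀ g : ℕ} {k : ℕ → Bool} (h0 : 6 ≤ N₀) (hg : 34 ≤ g) (hg1 : g ≤ 64)
    (he : 0 < e) :
    ∀ l : List (ℕ × ℕ × List (ℕ × ℕ × ℕ × ℕ × ℕ × ℕ)),
      (∀ x ∈ l, x.2.1 * x.1 ≤ 1073741824 ∧ 0 < x.1 ∧ chk x.2.1 136 x.2.2 = true) →
      vfind e N₀ g k l = true →
      ∃ V : ℕ, k V = true ∧ ∀ (N : ℕ) (R : ℝ) (w : Fin N → ℂ), N₀ ≤ N → (1024 : ℝ) / e ≤ R →
        (∀ k, 1 ≤ ‖w k‖) → ∑ k, ‖w k - (R : ℂ)‖ ≤ N →
        ((N : ℝ) + 1) / R * ∫ x in ((g : ℝ) / 64 * R)..R, ‖qq (uu w) x‖ ≤ (V : ℝ) / 2 ^ 40 := by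
  intro l
  induction l with
  | nil =>
    intro _ h
    simp [vfind] at h
  | cons x t ih =>
    intro hl h
    obtain ⟨e', r, rows⟩ := x
    obtain ⟨h1, h2, h3⟩ := hl _ List.mem_cons_self
    simp only at h1 h2 h3
    unfold vfind at h
    by_cases hb : Nat.ble e e' = true
    · rw [hb, cond_true, ev_eq] at h
      refine ⟨_, h, ?_⟩
      intro N R w hN hR hw ht
      have hee := Nat.le_of_ble_eq_true hb
      have he0 : (0 : ℝ) < e := by exact_mod_cast he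
      have hRp : 0 < R := lt_of_lt_of_le (by positivity) hR
      apply vt_sound h3 h0 hN (by omega) hg1 _ hRp hw ht
      refine le_trans ?_ hR
      rw [div_le_div_iff₀ (by positivity) he0]
      have h4 : r * e ≤ 1073741824 := le_trans (Nat.mul_le_mul_left r hee) h1
      have h5 : ((r * e : ℕ) : ℝ) ≤ ((1073741824 : ℕ) : ℝ) := by exact_mod_cast h4
      push_cast at h5
      linarith
    · rw [Bool.not_eq_true] at hb
      rw [hb, cond_false] at h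
      exact ih (fun x hx => hl x (List.mem_cons_of_mem _ hx)) h

/-- **VTAIL**: soundness of `vtk` -/
theorem vtk_sound {e N₀ g : ℕ} {k : ℕ → Bool} (h : vtk e N₀ g k = true) (h0 : 6 ≤ N₀)
    (hg : 34 ≤ g) (hg1 : g ≤ 64) (he : 0 < e) :
    ∃ V : ℕ, k V = true ∧ ∀ (N : ℕ) (R : ℝ) (w : Fin N → ℂ), N₀ ≤ N → (1024 : ℝ) / e ≤ R →
      (∀ k, 1 ≤ ‖w k‖) → ∑ k, ‖w k - (R : ℂ)‖ ≤ N →
      ((N : ℝ) + 1) / R * ∫ x in ((g : ℝ) / 64 * R)..R, ‖qq (uu w) x‖ ≤ (V : ℝ) / 2 ^ 40 :=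
  vfind_sound h0 hg hg1 he tabs tabs_ok h

/-- the same from a counterexample in normal form, over `[x₀, R]`, `x₀ ≥ (g/64) R` -/
theorem vtk_cfg {e N₀ g : ℕ} {k : ℕ → Bool} (h : vtk e N₀ g k = true) (h0 : 6 ≤ N₀)
    (hg : 34 ≤ g) (hg1 : g ≤ 64) (he : 0 < e) :
    ∃ V : ℕ, k V = true ∧ ∀ (N : ℕ) (z w : Fin N → ℂ) (R : ℝ) (σ : Fin N → ℂ),
      Cfg2 N z w R σ → N₀ ≤ N → (1024 : ℝ) / e ≤ R → ∀ x₀ : ℝ, (g : ℝ) / 64 * R ≤ x₀ → x₀ ≤ R →
      ((N : ℝ) + 1) / R * ∫ x in x₀..R, ‖qq (uu w) x‖ ≤ (V : ℝ) / 2 ^ 40 := by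
  obtain ⟨V, h1, h2⟩ := vtk_sound h h0 hg hg1 he
  refine ⟨V, h1, ?_⟩
  intro N z w R σ hC hN hR x₀ hx0 hx1
  refine le_trans ?_ (h2 N R w hN hR hC.cfg.far hC.dist.le)
  have hRp := hC.hR
  apply mul_le_mul_of_nonneg_left _ (by positivity)
  have hcont : Continuous fun x => ‖qq (uu w) x‖ := (qq_cont _).norm
  rw [← intervalIntegral.integral_add_adjacent_intervals
    (hcont.intervalIntegrable ((g : ℝ) / 64 * R) x₀) (hcont.intervalIntegrable _ _)]
  have := intervalIntegral.integral_nonneg (μ := volume) (f := fun x => ‖qq (uu w) x‖)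
    hx0 (fun x _ => norm_nonneg _)
  linarith

/-- speed test -/
theorem vtk_test : vtk 412 13 38 (fun V => Nat.ble V 25000000000) = true := by decide +kernel

end Pool.Agent.Lib.MP_af3a4a_an.P1.H21
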