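import Pool.Agent.Lib.MP_af3a4a_an.P1.H21.VTT0
import Pool.Agent.Lib.MP_af3a4a_an.P1.H21.VTab1

/-!
# VTAIL, checks of the literal table, part 1 (helper21, council 2), generated
-/

set_option autoImplicit false

namespace Pool.Agent.Lib.MP_af3a4a_an.P1.H21

theorem k172 : tchkN 0 t172 19 = true := by decide +kernel

theorem k176 : tchkN 1 t176 19 = true := by decide +kernel

theorem k184 : tchkN 2 t184 19 = true := by decide +kernel

theorem k192 : tchkN 3 t192 19 = true := by decide +kernel

theorem k200 : tchkN 4 t200 19 = true := by decide +kernel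

theorem k208 : tchkN 5 t208 19 = true := by decide +kernel

theorem k216 : tchkN 6 t216 19 = true := by decide +kernel

theorem k224 : tchkN 7 t224 19 = true := by decide +kernel

end Pool.Agent.Lib.MP_af3a4a_an.P1.H21
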