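import Pool.Agent.Lib.MP_af3a4a_an.P1.H21.VTT0
import Pool.Agent.Lib.MP_af3a4a_an.P1.H21.VTab2

/-!
# VTAIL, checks of the literal table, part 2 (helper21, council 2), generated
-/

set_option autoImplicit false

namespace Pool.Agent.Lib.MP_af3a4a_an.P1.H21

theorem k232 : tchkN 8 t232 19 = true := by decide +kernel

theorem k240 : tchkN 9 t240 19 = true := by decide +kernel

theorem k248 : tchkN 10 t248 19 = true := by decide +kernel

theorem k256 : tchkN 11 t256 19 = true := by decide +kernel

theorem k264 : tchkN 12 t264 19 = true := by decide +kernel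

theorem k272 : tchkN 13 t272 19 = true := by decide +kernel

theorem k280 : tchkN 14 t280 19 = true := by decide +kernel

theorem k288 : tchkN 15 t288 19 = true := by decide +kernel

end Pool.Agent.Lib.MP_af3a4a_an.P1.H21
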