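import Pool.Agent.Lib.MP_af3a4a_an.P1.H21.VTT0
import Pool.Agent.Lib.MP_af3a4a_an.P1.H21.VTab3

/-!
# VTAIL, checks of the literal table, part 3 (helper21, council 2), generated
-/

set_option autoImplicit false

namespace Pool.Agent.Lib.MP_af3a4a_an.P1.H21

theorem k296 : tchkN 16 t296 19 = true := by decide +kernel

theorem k304 : tchkN 17 t304 19 = true := by decide +kernel

theorem k312 : tchkN 18 t312 19 = true := by decide +kernel

theorem k320 : tchkN 19 t320 19 = true := by decide +kernel

theorem k328 : tchkN 20 t328 19 = true := by decide +kernel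

theorem k336 : tchkN 21 t336 19 = true := by decide +kernel

end Pool.Agent.Lib.MP_af3a4a_an.P1.H21
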