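import Pool.Agent.Lib.MP_af3a4a_an.P1.H21.VTT0
import Pool.Agent.Lib.MP_af3a4a_an.P1.H21.VTab4

/-!
# VTAIL, checks of the literal table, part 4 (helper21, council 2), generated
-/

set_option autoImplicit false

namespace Pool.Agent.Lib.MP_af3a4a_an.P1.H21

theorem k344 : tchkN 22 t344 19 = true := by decide +kernel

theorem k352 : tchkN 23 t352 19 = true := by decide +kernel

theorem k360 : tchkN 24 t360 19 = true := by decide +kernel

theorem k368 : tchkN 25 t368 19 = true := by decide +kernel

end Pool.Agent.Lib.MP_af3a4a_an.P1.H21
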