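import Pool.Agent.Lib.MP_af3a4a_an.P1.H21.VTT0
import Pool.Agent.Lib.MP_af3a4a_an.P1.H21.VTab5

/-!
# VTAIL, checks of the literal table, part 5 (helper21, council 2), generated
-/

set_option autoImplicit false

namespace Pool.Agent.Lib.MP_af3a4a_an.P1.H21

theorem k376 : tchkN 26 t376 19 = true := by decide +kernel

theorem k384 : tchkN 27 t384 19 = true := by decide +kernel

theorem k392 : tchkN 28 t392 19 = true := by decide +kernel

theorem k400 : tchkN 29 t400 19 = true := by decide +kernel

end Pool.Agent.Lib.MP_af3a4a_an.P1.H21
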