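import Pool.Agent.Lib.MP_af3a4a_an.P1.H21.VTT0
import Pool.Agent.Lib.MP_af3a4a_an.P1.H21.VTab6

/-!
# VTAIL, checks of the literal table, part 6 (helper21, council 2), generated
-/

set_option autoImplicit false

namespace Pool.Agent.Lib.MP_af3a4a_an.P1.H21

theorem k408 : tchkN 30 t408 19 = true := by decide +kernel

theorem k412 : tchkN 31 t412 19 = true := by decide +kernel

theorem k416 : tchkN 32 t416 19 = true := by decide +kernel

theorem k420 : tchkN 33 t420 19 = true := by decide +kernel

end Pool.Agent.Lib.MP_af3a4a_an.P1.H21
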