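import Pool.Agent.Lib.MP_af3a4a_an.P1.H21.VTail
import Pool.Agent.Lib.MP_af3a4a_an.P1.H21.VTT1
import Pool.Agent.Lib.MP_af3a4a_an.P1.H21.VTT2
import Pool.Agent.Lib.MP_af3a4a_an.P1.H21.VTT3
import Pool.Agent.Lib.MP_af3a4a_an.P1.H21.VTT4
import Pool.Agent.Lib.MP_af3a4a_an.P1.H21.VTT5
import Pool.Agent.Lib.MP_af3a4a_an.P1.H21.VTT6
import Pool.Agent.Lib.MP_af3a4a_an.P1.H21.VTT7

/-!
# VTAIL, the literal table: soundness (helper21, council 2), generated
-/

set_option autoImplicit false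

namespace Pool.Agent.Lib.MP_af3a4a_an.P1.H21

open MeasureTheory
open Pool.Agent.Lib.MP_af3a4a_an.SV (uu av)
open Pool.Agent.Lib.MP_af3a4a_an.P1.H80

/-- row number `i` -/
def rowN (i : ℕ) : ℕ × ℕ × List (ℕ × ℕ × ℕ × ℕ × ℕ × ℕ) := tabs.getD i (0, 0, [])

theorem vtI_ok : ∀ e : ℕ, e ≤ 424 → vtI e < 35 ∧ e ≤ (rowN (vtI e)).1 := by
  have h : ∀ e : ℕ, e < 425 → (Nat.blt (vtI e) 35 && Nat.ble e (rowN (vtI e)).1) = true := by
    decide +kernel
  intro e he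
  have h1 := h e (by omega)
  rw [Bool.and_eq_true] at h1
  exact ⟨Nat.blt_eq.mp h1.1, Nat.le_of_ble_eq_true h1.2⟩

theorem rows_ok : ∀ i : ℕ, i < 35 → tchkN i (rowN i).2.2 19 = true := by
  intro i hi
  interval_cases i
  · exact k172
  · exact k176
  · exact k184
  · exact k192
  · exact k200
  · exact k208
  · exact k216
  · exact k224
  · exact k232
  · exact k240
  · exact k248
  · exact k256
  · exact k264
  · exact k272
  · exact k280
  · exact k288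
  · exact k296
  · exact k304
  · exact k312
  · exact k320
  · exact k328
  · exact k336
  · exact k344
  · exact k352
  · exact k360
  · exact k368
  · exact k376
  · exact k384
  · exact k392
  · exact k400
  · exact k408
  · exact k412
  · exact k416
  · exact k420
  · exact k424

theorem rowN_mem {i : ℕ} (hi : i < 35) : rowN i ∈ tabs := by
  have hl : tabs.length = 35 := rfl
  have hi' : i < tabs.length := by rw [hl]; exact hi
  unfold rowN
  rw [List.getD_eq_getElem _ _ hi']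
  exact List.getElem_mem hi'

/-- **VTAIL, literal table, for bare `w`** -/
theorem vtT_sound {e N₀ g : ℕ} (h0 : 6 ≤ N₀) (hg : 34 ≤ g) (hg1 : g ≤ 39) (he : 0 < e)
    (he1 : e ≤ 424) {N : ℕ} {R : ℝ} {w : Fin N → ℂ} (hN : N₀ ≤ N) (hR : (1024 : ℝ) / e ≤ R)
    (hw : ∀ k, 1 ≤ ‖w k‖) (ht : ∑ k, ‖w k - (R : ℂ)‖ ≤ N) :
    ((N : ℝ) + 1) / R * ∫ x in ((g : ℝ) / 64 * R)..R, ‖qq (uu w) x‖ ≤
      (vtT e N₀ g : ℕ) / 2 ^ 40 := by
  obtain ⟨hi, hee⟩ := vtI_ok e he1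
  have hrow := rows_ok (vtI e) hi
  obtain ⟨h1, h2, h3⟩ := tabs_ok _ (rowN_mem hi)
  obtain ⟨n, hn, hn1, hn2⟩ : ∃ n, n < 19 ∧ 6 + n ≤ N₀ ∧
      vtT e N₀ g = vtTi (vtI e) n (g - 34) := by
    unfold vtT
    by_cases hb : N₀ ≤ 24
    · refine ⟨N₀ - 6, by omega, by omega, ?_⟩
      rw [Nat.ble_eq_true_of_le hb, cond_true]
    · refine ⟨18, by omega, by omega, ?_⟩
      have hb' : Nat.ble N₀ 24 = false := by
        rw [Bool.eq_false_iff, ne_eq, Nat.ble_eq]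
        exact hb
      rw [hb', cond_false]
  have h5 := tchkN_sound hrow hn (by omega : g - 34 < 6)
  have he0 : (0 : ℝ) < e := by exact_mod_cast he
  have hRp : 0 < R := lt_of_lt_of_le (by positivity) hR
  have hr : ((rowN (vtI e)).2.1 : ℝ) / 2 ^ 20 ≤ R := by
    refine le_trans ?_ hR
    rw [div_le_div_iff₀ (by positivity) he0]
    have h4 : (rowN (vtI e)).2.1 * e ≤ 1073741824 := le_trans (Nat.mul_le_mul_left _ hee) h1
    have h5 : (((rowN (vtI e)).2.1 * e : ℕ) : ℝ) ≤ ((1073741824 : ℕ) : ℝ) := by exact_mod_cast h4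
    push_cast at h5
    linarith
  have h6 := vt_sound h3 (by omega : 6 ≤ 6 + n) (hn1.trans hN) (by omega : 136 ≤ 4 * g)
    (by omega : g ≤ 64) hr hRp hw ht
  rw [hn2]
  refine h6.trans ?_
  apply div_le_div_of_nonneg_right _ (by positivity)
  have e1 : 34 + (g - 34) = g := by omega
  rw [e1] at h5
  exact_mod_cast h5

/-- **VTAIL, literal table** -/
theorem vtT_ok {e N₀ g : ℕ} (h0 : 6 ≤ N₀) (hg : 34 ≤ g) (hg1 : g ≤ 39) (he : 0 < e)
    (he1 : e ≤ 424) {N : ℕ} {z w : Fin N → ℂ} {R : ℝ} {σ : Fin N → ℂ} (hC : Cfg2 N z w R σ)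
    (hN : N₀ ≤ N) (hR : (1024 : ℝ) / e ≤ R) {x₀ : ℝ} (hx0 : (g : ℝ) / 64 * R ≤ x₀) (hx1 : x₀ ≤ R) :
    ((N : ℝ) + 1) / R * ∫ x in x₀..R, ‖qq (uu w) x‖ ≤ (vtT e N₀ g : ℕ) / 2 ^ 40 := by
  have _ := hx1
  refine le_trans ?_ (vtT_sound h0 hg hg1 he he1 hN hR hC.cfg.far hC.dist.le)
  have hRp := hC.hR
  apply mul_le_mul_of_nonneg_left _ (by positivity)
  have hcont : Continuous fun x => ‖qq (uu w) x‖ := (qq_cont _).norm
  rw [← intervalIntegral.integral_add_adjacent_intervals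
    (hcont.intervalIntegrable ((g : ℝ) / 64 * R) x₀) (hcont.intervalIntegrable _ _)]
  have := intervalIntegral.integral_nonneg (μ := volume) (f := fun x => ‖qq (uu w) x‖)
    hx0 (fun x _ => norm_nonneg _)
  linarith

end Pool.Agent.Lib.MP_af3a4a_an.P1.H21
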