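import Pool.Agent.Lib.MP_af3a4a_an.P1.H80.Normal

/-!
# VTAIL, part 1: the geometry (helper21, council 2)

For `|w| ≥ 1`, `C = |w - R|`, the number `|1 - f R / w|` is bounded by three curves in `C`, all of
them decreasing in `R` for fixed `f`, `C`.  `CellOK R₀ f₀ f₁ v al` collects the three one-dimensional
inequalities at the corner `R₀`; they give `|q(f R)| ≤ exp (N v)` for all `R ≥ R₀`, `f ∈ [f₀, f₁]`.
-/

set_option autoImplicit false

namespace Pool.Agent.Lib.MP_af3a4a_an.P1.H21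

open MeasureTheory
open Pool.Agent.Lib.MP_af3a4a_an.SV (uu av)
open Pool.Agent.Lib.MP_af3a4a_an.P1.H80

/-- Stewart's theorem for the point `f R` between `0` and `R` -/
theorem stewart (w : ℂ) (f R : ℝ) :
    ‖w - ((f * R : ℝ) : ℂ)‖ ^ 2 =
      (1 - f) * ‖w‖ ^ 2 + f * ‖w - (R : ℂ)‖ ^ 2 - f * (1 - f) * R ^ 2 := by
  simp only [Complex.sq_norm, Complex.normSq_apply, Complex.sub_re, Complex.sub_im,
    Complex.ofReal_re, Complex.ofReal_im]
  ring

/-- the three inequalities of a cell -/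
structure CellOK (R₀ f₀ f₁ v al : ℝ) : Prop where
  hR : 2 ≤ R₀
  hf0 : 0 < f₀
  hf01 : f₀ ≤ f₁
  hf1 : f₁ ≤ 1
  hfR : 1 ≤ f₁ * R₀ ^ 2
  hal : 0 ≤ al
  H1 : ∀ C : ℝ, 0 ≤ C → ((1 - f₀) * R₀ + C) / (R₀ + C) ≤ Real.exp (v + al * (C - 1))
  H2 : ∀ C : ℝ, (1 - f₁) * R₀ ≤ C → C ≤ R₀ - 1 →
    (C - (1 - f₁) * R₀) / (R₀ - C) ≤ Real.exp (v + al * (C - 1))
  H3 : ∀ C : ℝ, R₀ - 1 ≤ C →
    (1 - f₁) * (1 - f₁ * R₀ ^ 2) + f₁ * C ^ 2 ≤ Real.exp (v + al * (C - 1)) ^ 2

theorem CellOK.pt {R₀ f₀ f₁ v al : ℝ} (h : CellOK R₀ f₀ f₁ v al) {R f : ℝ} (hR : R₀ ≤ R)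
    (hf0 : f₀ ≤ f) (hf1 : f ≤ f₁) {w : ℂ} (hw : 1 ≤ ‖w‖) :
    ‖1 - ((f * R : ℝ) : ℂ) * w⁻¹‖ ≤ Real.exp (v + al * (‖w - (R : ℂ)‖ - 1)) := by
  have hR0 := h.hR
  have a0 := h.hf0
  have a1 := h.hf1
  have a2 := h.hfR
  have hRp : 0 < R := by linarith only [hR, hR0]
  have hsq : R₀ ^ 2 ≤ R ^ 2 := pow_le_pow_left₀ (by linarith only [hR0]) hR 2
  have hfp : 0 < f := by linarith only [hf0, a0]
  have hf1' : f ≤ 1 := by linarith only [hf1, a1]
  have hw0 : 0 < ‖w‖ := by linarith only [hw]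
  have hwne : w ≠ 0 := norm_pos_iff.1 hw0
  set C := ‖w - (R : ℂ)‖ with hC
  have hC0 : 0 ≤ C := norm_nonneg _
  have e0 : ‖1 - ((f * R : ℝ) : ℂ) * w⁻¹‖ = ‖w - ((f * R : ℝ) : ℂ)‖ / ‖w‖ := by
    rw [← norm_div]
    congr 1
    field_simp
  have hst := stewart w f R
  rw [← hC] at hst
  have hRn : ‖(R : ℂ)‖ = R := by rw [Complex.norm_real, Real.norm_of_nonneg hRp.le]
  have hup : ‖w‖ ≤ R + C := by
    have := norm_add_le (w - (R : ℂ)) (R : ℂ)
    rw [sub_add_cancel, hRn] at this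
    linarith only [this]
  have hlo : R - C ≤ ‖w‖ := by
    have := norm_sub_norm_le (R : ℂ) ((R : ℂ) - w)
    rw [sub_sub_cancel, hRn, norm_sub_rev] at this
    linarith only [this]
  rw [e0]
  rcases le_total (C ^ 2) ((1 - f) * R ^ 2) with hcase | hcase
  · -- the curve `w = R + C`
    have k1 : ‖w - ((f * R : ℝ) : ℂ)‖ / ‖w‖ ≤ ((1 - f) * R + C) / (R + C) := by
      have hRC : 0 < R + C := by linarith only [hR, hR0, hC0]
      have hnum : 0 ≤ (1 - f) * R + C := by nlinarith only [hR, hf1, hR0, a1, hC0]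
      rw [div_le_div_iff₀ hw0 hRC]
      apply abs_le_of_sq_le_sq' _ (by positivity) |>.2
      rw [mul_pow, hst, mul_pow]
      have e : ((1 - f) * R + C) ^ 2 = (1 - f) * (R + C) ^ 2 + f * C ^ 2 - f * (1 - f) * R ^ 2 := by
        ring
      rw [e]
      have h3 : ‖w‖ ^ 2 ≤ (R + C) ^ 2 := pow_le_pow_left₀ hw0.le hup 2
      have h4 : 0 ≤ f * ((1 - f) * R ^ 2 - C ^ 2) := mul_nonneg hfp.le (by linarith only [hcase])
      linarith only [h3, h4, mul_nonneg h4 (sub_nonneg.2 h3)]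
    have k2 : ((1 - f) * R + C) / (R + C) ≤ ((1 - f₀) * R₀ + C) / (R₀ + C) := by
      rw [div_le_div_iff₀ (by linarith only [hR, hR0, hC0]) (by linarith only [hR0, hC0])]
      have h5 : 0 ≤ (f - f₀) * R * (R₀ + C) := by
        apply mul_nonneg (mul_nonneg (by linarith only [hf0]) hRp.le) (by linarith only [hR0, hC0])
      have h6 : 0 ≤ f₀ * C * (R - R₀) := mul_nonneg (mul_nonneg a0.le hC0) (by linarith only [hR])
      linarith only [h5, h6]
    exact k1.trans (k2.trans (h.H1 C hC0))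
  · have hg : 0 ≤ f * (C ^ 2 - (1 - f) * R ^ 2) := mul_nonneg hfp.le (by linarith only [hcase])
    rcases le_total C (R₀ - 1) with hc2 | hc2
    · -- the curve `w = R - C`
      have hCa : (1 - f) * R ≤ C := by
        apply abs_le_of_sq_le_sq' _ hC0 |>.2
        have : (1 - f) ^ 2 * R ^ 2 ≤ (1 - f) * R ^ 2 := by
          have h7 : 0 ≤ (1 - f) * f * R ^ 2 := by
            apply mul_nonneg (mul_nonneg (by linarith only [hf1, a1]) hfp.le) (by positivity)
          linarith only [h7]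
        linarith only [hcase, this]
      have hRC : 0 < R - C := by linarith only [hR, hc2]
      have k1 : ‖w - ((f * R : ℝ) : ℂ)‖ / ‖w‖ ≤ (C - (1 - f) * R) / (R - C) := by
        rw [div_le_div_iff₀ hw0 hRC]
        apply abs_le_of_sq_le_sq' _ (mul_nonneg (by linarith only [hCa]) hw0.le) |>.2
        rw [mul_pow, hst, mul_pow]
        have e : (C - (1 - f) * R) ^ 2 =
            (1 - f) * (R - C) ^ 2 + f * C ^ 2 - f * (1 - f) * R ^ 2 := by
          ring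
        rw [e]
        have h3 : (R - C) ^ 2 ≤ ‖w‖ ^ 2 := pow_le_pow_left₀ hRC.le hlo 2
        linarith only [hg, h3, mul_nonneg hg (sub_nonneg.2 h3)]
      have k2 : (C - (1 - f) * R) / (R - C) ≤ (C - (1 - f₁) * R₀) / (R₀ - C) := by
        apply div_le_div₀ _ _ (by linarith only [hc2]) (by linarith only [hR])
        · nlinarith only [hR, hf1, hR0, a1, hCa]
        · nlinarith only [hR, hf1, hR0, a1]
      refine k1.trans (k2.trans (h.H2 C ?_ hc2))
      nlinarith only [hR, hf1, hR0, a1, hCa]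
    · -- the circle `|w| = 1`
      have k1 : ‖w - ((f * R : ℝ) : ℂ)‖ / ‖w‖ ≤ Real.exp (v + al * (C - 1)) := by
        have h8 := h.H3 C hc2
        rw [div_le_iff₀ hw0]
        apply abs_le_of_sq_le_sq' _ (by positivity) |>.2
        rw [mul_pow, hst]
        have h1 : (1 : ℝ) ≤ ‖w‖ ^ 2 := one_le_pow₀ hw
        have h9 : (1 - f) * ‖w‖ ^ 2 + f * C ^ 2 - f * (1 - f) * R ^ 2 ≤
            ((1 - f) + f * (C ^ 2 - (1 - f) * R ^ 2)) * ‖w‖ ^ 2 := by
          linarith only [hg, h1, mul_nonneg hg (sub_nonneg.2 h1)]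
        have h10 : (1 - f) + f * (C ^ 2 - (1 - f) * R ^ 2) ≤
            (1 - f₁) * (1 - f₁ * R₀ ^ 2) + f₁ * C ^ 2 := by
          have b1 : (1 - f) + f * (C ^ 2 - (1 - f) * R ^ 2) ≤
              (1 - f₁) * (1 - f₁ * R ^ 2) + f₁ * C ^ 2 := by
            have b2 : 1 ≤ f₁ * R ^ 2 := a2.trans (mul_le_mul_of_nonneg_left hsq (by linarith only [hf0, hf1, a0]))
            have b3 : 0 ≤ (f₁ - f) * (C ^ 2 - (1 - f) * R ^ 2 + (f₁ * R ^ 2 - 1)) :=
              mul_nonneg (by linarith only [hf1]) (by linarith only [hcase, b2])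
            linarith only [b3]
          have b4 : (1 - f₁) * (1 - f₁ * R ^ 2) ≤ (1 - f₁) * (1 - f₁ * R₀ ^ 2) := by
            apply mul_le_mul_of_nonneg_left _ (by linarith only [a1])
            have := mul_le_mul_of_nonneg_left hsq (by linarith only [hf0, hf1, a0] : 0 ≤ f₁)
            linarith only [this]
          linarith only [b1, b4]
        calc (1 - f) * ‖w‖ ^ 2 + f * C ^ 2 - f * (1 - f) * R ^ 2
            ≤ ((1 - f) + f * (C ^ 2 - (1 - f) * R ^ 2)) * ‖w‖ ^ 2 := h9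
          _ ≤ Real.exp (v + al * (C - 1)) ^ 2 * ‖w‖ ^ 2 :=
              mul_le_mul_of_nonneg_right (h10.trans h8) (by positivity)
      exact k1

theorem CellOK.qq_le {R₀ f₀ f₁ v al : ℝ} (h : CellOK R₀ f₀ f₁ v al) {R f : ℝ} (hR : R₀ ≤ R)
    (hf0 : f₀ ≤ f) (hf1 : f ≤ f₁) {N : ℕ} {w : Fin N → ℂ} (hw : ∀ k, 1 ≤ ‖w k‖)
    (ht : ∑ k, ‖w k - (R : ℂ)‖ ≤ N) :
    ‖qq (uu w) (f * R)‖ ≤ Real.exp v ^ N := by
  unfold qq
  rw [norm_prod]
  calc ∏ k, ‖1 - ((f * R : ℝ) : ℂ) * uu w k‖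
      ≤ ∏ k, Real.exp (v + al * (‖w k - (R : ℂ)‖ - 1)) := by
        apply Finset.prod_le_prod (fun _ _ => norm_nonneg _)
        intro k _
        exact h.pt hR hf0 hf1 (hw k)
    _ = Real.exp (∑ k, (v + al * (‖w k - (R : ℂ)‖ - 1))) := (Real.exp_sum _ _).symm
    _ ≤ Real.exp (N * v) := by
        apply Real.exp_le_exp.2
        rw [Finset.sum_add_distrib, ← Finset.mul_sum, Finset.sum_sub_distrib]
        simp only [Finset.sum_const, Finset.card_univ, Fintype.card_fin, nsmul_eq_mul, mul_one]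
        nlinarith only [h, ht, h.hal]
    _ = Real.exp v ^ N := Real.exp_nat_mul v N

/-- the integral over a cell -/
theorem CellOK.int_le {R₀ f₀ f₁ v al : ℝ} (h : CellOK R₀ f₀ f₁ v al) {R : ℝ} (hR : R₀ ≤ R)
    {N : ℕ} {w : Fin N → ℂ} (hw : ∀ k, 1 ≤ ‖w k‖) (ht : ∑ k, ‖w k - (R : ℂ)‖ ≤ N) :
    ∫ x in (f₀ * R)..(f₁ * R), ‖qq (uu w) x‖ ≤ (f₁ - f₀) * R * Real.exp v ^ N := by
  have hRp : 0 < R := by linarith only [h, hR, h.hR]
  have hle : f₀ * R ≤ f₁ * R := mul_le_mul_of_nonneg_right h.hf01 hRp.le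
  calc ∫ x in (f₀ * R)..(f₁ * R), ‖qq (uu w) x‖
      ≤ ∫ x in (f₀ * R)..(f₁ * R), Real.exp v ^ N := by
        apply intervalIntegral.integral_mono_on hle
          ((qq_cont _).norm.intervalIntegrable _ _) (continuous_const.intervalIntegrable _ _)
        intro x hx
        have e : x = x / R * R := by field_simp
        rw [e]
        apply h.qq_le hR _ _ hw ht
        · rw [le_div_iff₀ hRp]
          exact hx.1
        · rw [div_le_iff₀ hRp]
          exact hx.2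
    _ = (f₁ - f₀) * R * Real.exp v ^ N := by
        rw [intervalIntegral.integral_const, smul_eq_mul]
        ring

/-! ### tangent lines -/

/-- `w = R + C`: the tangent at `c` -/
theorem tan1 {R f c C : ℝ} (hR : 0 < R) (hf : 0 < f) (hc : 0 ≤ c) (hC : 0 ≤ C)
    (hp : 0 < (1 - f) * R + c) :
    ((1 - f) * R + C) / (R + C) ≤ ((1 - f) * R + c) / (R + c) *
      Real.exp (f * R / ((R + c) * ((1 - f) * R + c)) * (C - c)) := by
  have hRc : 0 < R + c := by linarith only [hR, hc]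
  have hRC : 0 < R + C := by linarith only [hR, hC]
  have h1 : 0 < ((1 - f) * R + c) / (R + c) := div_pos hp hRc
  have h2 := Real.add_one_le_exp (f * R / ((R + c) * ((1 - f) * R + c)) * (C - c))
  have h3 : ((1 - f) * R + C) / (R + C) ≤ ((1 - f) * R + c) / (R + c) *
      (f * R / ((R + c) * ((1 - f) * R + c)) * (C - c) + 1) := by
    have e : ((1 - f) * R + c) / (R + c) *
      (f * R / ((R + c) * ((1 - f) * R + c)) * (C - c) + 1) - ((1 - f) * R + C) / (R + C) =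
      f * R * (C - c) ^ 2 / ((R + c) ^ 2 * (R + C)) := by
      field_simp
      ring
    have e2 : 0 ≤ f * R * (C - c) ^ 2 / ((R + c) ^ 2 * (R + C)) := by positivity
    linarith only [e, e2]
  exact h3.trans (mul_le_mul_of_nonneg_left h2 h1.le)

theorem h1_of {R f c v al : ℝ} (hR : 0 < R) (hf : 0 < f) (hc : 0 ≤ c)
    (hp : 0 < (1 - f) * R + c) (hs : f * R / ((R + c) * ((1 - f) * R + c)) ≤ al)
    (ht : ((1 - f) * R + c) / (R + c) ≤
      Real.exp (v - al + f * R / ((R + c) * ((1 - f) * R + c)) * c)) :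
    ∀ C : ℝ, 0 ≤ C → ((1 - f) * R + C) / (R + C) ≤ Real.exp (v + al * (C - 1)) := by
  intro C hC
  refine (tan1 hR hf hc hC hp).trans ?_
  refine (mul_le_mul_of_nonneg_right ht (Real.exp_pos _).le).trans ?_
  rw [← Real.exp_add]
  apply Real.exp_le_exp.2
  nlinarith only [hs, hC]

/-- `|w| = 1`: the tangent at `c` -/
theorem tan3 {f D c C : ℝ} (hD : 0 ≤ D) (hc : 0 < c) (hC : 0 < C)
    (hp : 0 < f * c ^ 2 - D) :
    f * C ^ 2 - D ≤ (f * c ^ 2 - D) * Real.exp (f * c / (f * c ^ 2 - D) * (C - c)) ^ 2 := by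
  obtain ⟨P, hP⟩ : ∃ P, P = f * c ^ 2 - D := ⟨_, rfl⟩
  have hD' : D = f * c ^ 2 - P := by rw [hP]; ring
  rw [← hP] at hp ⊢
  subst hD'
  clear hP
  rcases le_or_gt (f * C ^ 2 - (f * c ^ 2 - P)) 0 with h0 | h0
  · exact h0.trans (by positivity)
  have k1 : C / c ≤ Real.exp ((C - c) / c) := by
    have := Real.add_one_le_exp ((C - c) / c)
    have e : (C - c) / c + 1 = C / c := by field_simp; ring
    linarith only [this, e]
  have k2 : (f - (f * c ^ 2 - P) / C ^ 2) * c ^ 2 / P ≤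
      Real.exp (2 * (f * c ^ 2 - P) * (C - c) / (c * P)) := by
    have h2 := Real.add_one_le_exp (2 * (f * c ^ 2 - P) * (C - c) / (c * P))
    refine le_trans ?_ h2
    have e : (2 * (f * c ^ 2 - P) * (C - c) / (c * P) + 1) -
        (f - (f * c ^ 2 - P) / C ^ 2) * c ^ 2 / P =
        (f * c ^ 2 - P) * (C - c) ^ 2 * (2 * C + c) / (c * P * C ^ 2) := by
      field_simp
      ring
    have e2 : 0 ≤ (f * c ^ 2 - P) * (C - c) ^ 2 * (2 * C + c) / (c * P * C ^ 2) := by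
      apply div_nonneg (mul_nonneg (mul_nonneg hD (sq_nonneg _)) (by linarith only [hc, hC])) (by positivity)
    linarith only [e, e2]
  have e1 : f * C ^ 2 - (f * c ^ 2 - P) =
      P * ((C / c) ^ 2 * ((f - (f * c ^ 2 - P) / C ^ 2) * c ^ 2 / P)) := by
    field_simp
  rw [e1]
  apply mul_le_mul_of_nonneg_left _ hp.le
  calc (C / c) ^ 2 * ((f - (f * c ^ 2 - P) / C ^ 2) * c ^ 2 / P)
      ≤ Real.exp ((C - c) / c) ^ 2 * Real.exp (2 * (f * c ^ 2 - P) * (C - c) / (c * P)) := by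
        apply mul_le_mul (pow_le_pow_left₀ (by positivity) k1 2) k2 _ (by positivity)
        apply div_nonneg _ hp.le
        apply mul_nonneg _ (by positivity)
        have : f - (f * c ^ 2 - P) / C ^ 2 = (f * C ^ 2 - (f * c ^ 2 - P)) / C ^ 2 := by field_simp
        rw [this]
        positivity
    _ = Real.exp (f * c / P * (C - c)) ^ 2 := by
        rw [← Real.exp_nat_mul, ← Real.exp_nat_mul, ← Real.exp_add]
        congr 1
        push_cast
        field_simp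
        ring

theorem h3_of {R f c v al : ℝ} (hR : 2 ≤ R) (hf : 0 < f) (hf1 : f ≤ 1)
    (hfR : 1 ≤ f * R ^ 2) (hc : R - 1 ≤ c)
    (hp : 0 < f * c ^ 2 - (1 - f) * (f * R ^ 2 - 1))
    (hs : f * c / (f * c ^ 2 - (1 - f) * (f * R ^ 2 - 1)) ≤ al)
    (ht : f * c ^ 2 - (1 - f) * (f * R ^ 2 - 1) ≤
      Real.exp (v + al * (R - 2) +
        f * c / (f * c ^ 2 - (1 - f) * (f * R ^ 2 - 1)) * (c - (R - 1))) ^ 2) :
    ∀ C : ℝ, R - 1 ≤ C →
      (1 - f) * (1 - f * R ^ 2) + f * C ^ 2 ≤ Real.exp (v + al * (C - 1)) ^ 2 := by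
  intro C hC
  have hD : 0 ≤ (1 - f) * (f * R ^ 2 - 1) := mul_nonneg (by linarith only [hf1]) (by linarith only [hfR])
  have h := tan3 (C := C) hD (by linarith only [hR, hc] : 0 < c) (by linarith only [hR, hC] : 0 < C) hp
  have e : (1 - f) * (1 - f * R ^ 2) + f * C ^ 2 = f * C ^ 2 - (1 - f) * (f * R ^ 2 - 1) := by ring
  rw [e]
  refine h.trans ?_
  refine (mul_le_mul_of_nonneg_right ht (by positivity)).trans ?_
  rw [← mul_pow, ← Real.exp_add]
  apply pow_le_pow_left₀ (Real.exp_pos _).le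
  apply Real.exp_le_exp.2
  nlinarith only [hs, hC]

end Pool.Agent.Lib.MP_af3a4a_an.P1.H21
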