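import Pool.Agent.Lib.MP_af3a4a_an.P1.H21.VT1

/-!
# VTAIL, part 2: the curve `w = R - C` (helper21, council 2)

`log ((C - a)/(R - C))` is concave, then convex.
-/

set_option autoImplicit false

namespace Pool.Agent.Lib.MP_af3a4a_an.P1.H21

/-- the slope of the logit is at least `4/(q+r)` -/
theorem logit_grow {q r δ : ℝ} (hq : 0 < q) (h0 : 0 ≤ δ) (hδ : δ < r) :
    q / r * Real.exp (4 / (q + r) * δ) ≤ (q + δ) / (r - δ) := by
  have hr : 0 < r := by linarith
  have hd : ∀ x ∈ Set.Ico (0 : ℝ) r, HasDerivAt
      (fun x => Real.log (q + x) - Real.log (r - x) - 4 / (q + r) * x)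
      (1 / (q + x) + 1 / (r - x) - 4 / (q + r)) x := by
    intro x hx
    have h1 : HasDerivAt (fun x => Real.log (q + x)) (1 / (q + x)) x :=
      ((hasDerivAt_id x).const_add q).log (by simp only [id]; linarith [hx.1])
    have h2 : HasDerivAt (fun x => Real.log (r - x)) ((-1) / (r - x)) x :=
      ((hasDerivAt_id x).const_sub r).log (by simp only [id]; linarith [hx.2])
    have h3 : HasDerivAt (fun x => 4 / (q + r) * x) (4 / (q + r) * 1) x :=
      (hasDerivAt_id x).const_mul (4 / (q + r))
    refine ((h1.sub h2).sub h3).congr_deriv ?_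
    ring
  have hm : MonotoneOn (fun x => Real.log (q + x) - Real.log (r - x) - 4 / (q + r) * x)
      (Set.Ico (0 : ℝ) r) := by
    apply monotoneOn_of_deriv_nonneg (convex_Ico 0 r)
    · exact fun x hx => (hd x hx).continuousAt.continuousWithinAt
    · intro x hx
      rw [interior_Ico] at hx
      exact (hd x ⟨hx.1.le, hx.2⟩).differentiableAt.differentiableWithinAt
    · intro x hx
      rw [interior_Ico] at hx
      rw [(hd x ⟨hx.1.le, hx.2⟩).deriv]
      have a1 : 0 < q + x := by linarith [hx.1]
      have a2 : 0 < r - x := by linarith [hx.2]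
      have e : 1 / (q + x) + 1 / (r - x) - 4 / (q + r) =
          ((q + x) - (r - x)) ^ 2 / ((q + x) * (r - x) * (q + r)) := by
        have : q + r ≠ 0 := by positivity
        field_simp
        ring
      rw [e]
      positivity
  have h := hm ⟨le_refl 0, hr⟩ ⟨h0, hδ⟩ h0
  simp only [add_zero, sub_zero, mul_zero] at h
  have a1 : 0 < q + δ := by linarith
  have a2 : 0 < r - δ := by linarith
  rw [← Real.log_le_log_iff (by positivity) (by positivity),
    Real.log_mul (by positivity) (Real.exp_pos _).ne', Real.log_exp,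
    Real.log_div hq.ne' hr.ne', Real.log_div a1.ne' a2.ne']
  linarith

/-- the tangent of the logit in the concave part -/
theorem logit_tan {p r δ : ℝ} (hp : 0 < p) (hpr : p ≤ r) (h0 : -p < δ) (hδ : δ ≤ r - p) :
    (p + δ) / (r - δ) ≤ p / r * Real.exp ((p + r) / (p * r) * δ) := by
  have hr : 0 < r := by linarith
  have hd : ∀ x, -p < x → x < r → HasDerivAt
      (fun x => (p + r) / (p * r) * x - (Real.log (p + x) - Real.log (r - x)))
      ((p + r) * (x * (r - p - x)) / (p * r * ((p + x) * (r - x)))) x := by
    intro x hx1 hx2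
    have b1 : p + x ≠ 0 := by linarith
    have b2 : r - x ≠ 0 := by linarith
    have h1 : HasDerivAt (fun x => Real.log (p + x)) (1 / (p + x)) x :=
      ((hasDerivAt_id x).const_add p).log (by simpa using b1)
    have h2 : HasDerivAt (fun x => Real.log (r - x)) ((-1) / (r - x)) x :=
      ((hasDerivAt_id x).const_sub r).log (by simpa using b2)
    have h3 : HasDerivAt (fun x => (p + r) / (p * r) * x) ((p + r) / (p * r) * 1) x :=
      (hasDerivAt_id x).const_mul _
    refine (h3.sub (h1.sub h2)).congr_deriv ?_
    field_simp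
    ring
  have key : (p + r) / (p * r) * 0 - (Real.log (p + 0) - Real.log (r - 0)) ≤
      (p + r) / (p * r) * δ - (Real.log (p + δ) - Real.log (r - δ)) := by
    rcases le_total 0 δ with hs | hs
    · have hm : MonotoneOn (fun x => (p + r) / (p * r) * x - (Real.log (p + x) - Real.log (r - x)))
          (Set.Icc (0 : ℝ) (r - p)) := by
        apply monotoneOn_of_deriv_nonneg (convex_Icc 0 (r - p))
        · exact fun x hx => (hd x (by linarith [hx.1]) (by linarith [hx.2])).continuousAt.continuousWithinAt
        · intro x hx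
          rw [interior_Icc] at hx
          exact (hd x (by linarith [hx.1]) (by linarith [hx.2])).differentiableAt.differentiableWithinAt
        · intro x hx
          rw [interior_Icc] at hx
          rw [(hd x (by linarith [hx.1]) (by linarith [hx.2])).deriv]
          have a1 : 0 < p + x := by linarith [hx.1]
          have a2 : 0 < r - x := by linarith [hx.2]
          have a3 : 0 < r - p - x := by linarith [hx.2]
          have a4 : 0 < x := hx.1
          positivity
      exact hm ⟨le_refl 0, by linarith⟩ ⟨hs, hδ⟩ hs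
    · have hm : AntitoneOn (fun x => (p + r) / (p * r) * x - (Real.log (p + x) - Real.log (r - x)))
          (Set.Icc δ 0) := by
        apply antitoneOn_of_deriv_nonpos (convex_Icc δ 0)
        · exact fun x hx => (hd x (by linarith [hx.1]) (by linarith [hx.2])).continuousAt.continuousWithinAt
        · intro x hx
          rw [interior_Icc] at hx
          exact (hd x (by linarith [hx.1]) (by linarith [hx.2])).differentiableAt.differentiableWithinAt
        · intro x hx
          rw [interior_Icc] at hx
          rw [(hd x (by linarith [hx.1]) (by linarith [hx.2])).deriv]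
          have a1 : 0 < p + x := by linarith [hx.1]
          have a2 : 0 < r - x := by linarith [hx.2]
          have a3 : 0 ≤ r - p - x := by linarith [hx.2]
          have a4 : x ≤ 0 := hx.2.le
          apply div_nonpos_of_nonpos_of_nonneg _ (by positivity)
          apply mul_nonpos_of_nonneg_of_nonpos (by positivity)
          exact mul_nonpos_of_nonpos_of_nonneg a4 a3
      exact hm ⟨le_refl δ, hs⟩ ⟨hs, le_refl 0⟩ hs
  simp only [add_zero, sub_zero, mul_zero] at key
  have a1 : 0 < p + δ := by linarith
  have a2 : 0 < r - δ := by linarith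
  rw [← Real.log_le_log_iff (by positivity) (by positivity),
    Real.log_mul (by positivity) (Real.exp_pos _).ne', Real.log_exp,
    Real.log_div hp.ne' hr.ne', Real.log_div a1.ne' a2.ne']
  linarith

/-- the tangent of the logit in the convex part -/
theorem logit_tan' {p r δ : ℝ} (hr : 0 < r) (hpr : r ≤ p) (h0 : r - p ≤ δ) (hδ : δ < r) :
    p / r ≤ (p + δ) / (r - δ) * Real.exp (-((p + r) / (p * r) * δ)) := by
  have hp : 0 < p := by linarith
  have h := logit_tan (δ := -δ) hr hpr (by linarith) (by linarith)
  have a1 : 0 < p + δ := by linarith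
  have a2 : 0 < r - δ := by linarith
  rw [← sub_eq_add_neg, sub_neg_eq_add] at h
  have e : (r + p) / (r * p) * -δ = -((p + r) / (p * r) * δ) := by
    rw [add_comm r p, mul_comm r p]; ring
  rw [e] at h
  rw [div_le_iff₀ a1] at h
  have h2 := mul_le_mul_of_nonneg_left h (by positivity : 0 ≤ p / r / (r - δ))
  have e1 : p / r / (r - δ) * (r - δ) = p / r := by field_simp
  have e2 : p / r / (r - δ) * (r / p * Real.exp (-((p + r) / (p * r) * δ)) * (p + δ)) =
      (p + δ) / (r - δ) * Real.exp (-((p + r) / (p * r) * δ)) := by field_simp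
  rw [e1, e2] at h2
  exact h2

/-- type 1: the slope of the line is smaller than every slope of the logit -/
theorem h2_of_small {R f v al : ℝ} (hR : 2 ≤ R) (hf : 0 < f) (_hal : 0 ≤ al)
    (hs : al * (f * R) ≤ 4) (he : f * R - 1 ≤ Real.exp (v + al * (R - 2))) :
    ∀ C : ℝ, (1 - f) * R ≤ C → C ≤ R - 1 →
      (C - (1 - f) * R) / (R - C) ≤ Real.exp (v + al * (C - 1)) := by
  intro C h1 h2
  rcases h1.eq_or_lt with h1 | h1
  · rw [← h1, sub_self, zero_div]
    exact (Real.exp_pos _).le
  have hfR : 0 < f * R := by positivity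
  have hq : 0 < C - (1 - f) * R := by linarith
  have h := logit_grow (r := R - C) (δ := R - 1 - C) hq (by linarith) (by linarith)
  have e1 : C - (1 - f) * R + (R - C) = f * R := by ring
  have e2 : C - (1 - f) * R + (R - 1 - C) = f * R - 1 := by ring
  have e3 : R - C - (R - 1 - C) = 1 := by ring
  rw [e1, e2, e3, div_one] at h
  have h3 := h.trans he
  have h4 : al * (R - 1 - C) ≤ 4 / (f * R) * (R - 1 - C) := by
    apply mul_le_mul_of_nonneg_right _ (by linarith)
    rw [le_div_iff₀ hfR]
    exact hs
  have h5 : (C - (1 - f) * R) / (R - C) ≤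
      Real.exp (v + al * (R - 2)) * Real.exp (-(4 / (f * R) * (R - 1 - C))) := by
    rw [Real.exp_neg, ← div_eq_mul_inv, le_div_iff₀ (Real.exp_pos _)]
    exact h3
  refine h5.trans ?_
  rw [← Real.exp_add]
  apply Real.exp_le_exp.2
  linarith

/-- type 2: a tangent point in the concave part -/
theorem h2_of_tan {R f c v al : ℝ} (hR : 2 ≤ R) (hf : 0 < f)
    (hc : (1 - f) * R < c) (hcr : c - (1 - f) * R ≤ R - c)
    (hs : f * R / ((c - (1 - f) * R) * (R - c)) ≤ al)
    (ht : (c - (1 - f) * R) / (R - c) ≤ Real.exp (v + al * ((1 - f) * R - 1) +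
      f * R / ((c - (1 - f) * R) * (R - c)) * (c - (1 - f) * R)))
    (he : f * R - 1 ≤ Real.exp (v + al * (R - 2))) :
    ∀ C : ℝ, (1 - f) * R ≤ C → C ≤ R - 1 →
      (C - (1 - f) * R) / (R - C) ≤ Real.exp (v + al * (C - 1)) := by
  have hfR : 0 < f * R := by positivity
  obtain ⟨a, ha⟩ : ∃ a, a = (1 - f) * R := ⟨_, rfl⟩
  have hfa : f * R = R - a := by rw [ha]; ring
  rw [hfa] at hfR hs ht he
  rw [← ha] at hc hcr hs ht ⊢
  have hRc : 0 < R - c := by linarith
  obtain ⟨s, hsd⟩ : ∃ s, s = (R - a) / ((c - a) * (R - c)) := ⟨_, rfl⟩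
  rw [← hsd] at hs ht
  -- the concave part
  have hI : ∀ C : ℝ, a < C → C ≤ R + a - c →
      (C - a) / (R - C) ≤ Real.exp (v + al * (C - 1)) := by
    intro C h1 h2
    have h := logit_tan (p := c - a) (r := R - c) (δ := C - c) (by linarith) hcr (by linarith)
      (by linarith)
    have e1 : c - a + (C - c) = C - a := by ring
    have e2 : R - c - (C - c) = R - C := by ring
    have e3 : c - a + (R - c) = R - a := by ring
    rw [e1, e2, e3, ← hsd] at h
    refine h.trans ?_
    refine (mul_le_mul_of_nonneg_right ht (Real.exp_pos _).le).trans ?_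
    rw [← Real.exp_add]
    apply Real.exp_le_exp.2
    nlinarith
  intro C h1 h2
  rcases h1.eq_or_lt with h1 | h1
  · rw [← h1, sub_self, zero_div]
    exact (Real.exp_pos _).le
  rcases le_total C (R + a - c) with h3 | h3
  · exact hI C h1 h3
  -- the convex part
  have hCa : 0 < C - a := by linarith
  have hRC : 0 < R - C := by linarith
  obtain ⟨s', hs'⟩ : ∃ s', s' = (R - a) / ((C - a) * (R - C)) := ⟨_, rfl⟩
  have e3 : C - a + (R - C) = R - a := by ring
  rcases le_total s' al with h4 | h4
  · have h := logit_tan' (p := C - a) (r := R - C) (δ := R + a - c - C) hRC (by linarith)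
      (by linarith) (by linarith)
    have e1 : C - a + (R + a - c - C) = R + a - c - a := by ring
    have e2 : R - C - (R + a - c - C) = R - (R + a - c) := by ring
    rw [e1, e2, e3, ← hs'] at h
    have h5 := hI (R + a - c) (by linarith) (le_refl _)
    refine h.trans ?_
    refine (mul_le_mul_of_nonneg_right h5 (Real.exp_pos _).le).trans ?_
    rw [← Real.exp_add]
    apply Real.exp_le_exp.2
    nlinarith
  · have h := logit_tan' (p := C - a) (r := R - C) (δ := R - 1 - C) hRC (by linarith)
      (by linarith) (by linarith)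
    have e1 : C - a + (R - 1 - C) = R - a - 1 := by ring
    have e2 : R - C - (R - 1 - C) = 1 := by ring
    rw [e1, e2, e3, ← hs', div_one] at h
    refine h.trans ?_
    refine (mul_le_mul_of_nonneg_right he (Real.exp_pos _).le).trans ?_
    rw [← Real.exp_add]
    apply Real.exp_le_exp.2
    nlinarith

end Pool.Agent.Lib.MP_af3a4a_an.P1.H21
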