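import Pool.Agent.Lib.MP_af3a4a_an.P1.H21.VT2
import Pool.Agent.Lib.MP_af3a4a_an.P1.CHK.Arith

/-!
# VTAIL, part 3: the checker (helper21, council 2)

Scales: `f = g/256`, `R₀ = r/2^20`, `C = c/2^20`, `al = A/2^20`, `exp v = E/2^24`.
A row `(G, E, A, c1, c2, c3)` belongs to the cell `f ∈ [F/256, G/256]`, `F` the previous `G`.
-/

set_option autoImplicit false

namespace Pool.Agent.Lib.MP_af3a4a_an.P1.H21

open MeasureTheory
open Pool.Agent.Lib.MP_af3a4a_an.SV (uu av)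
open Pool.Agent.Lib.MP_af3a4a_an.P1.H80
open Pool.Agent.Lib.MP_af3a4a_an.P1.CHK.Arith

/-- geometry of a cell -/
def chk0 (r F G E : ℕ) : Bool :=
  Nat.ble 2097152 r && (Nat.blt 0 F && (Nat.blt F G && (Nat.ble G 256 &&
    (Nat.ble 281474976710656 (G * (r * r)) && (Nat.blt 0 E && Nat.ble E 14680064)))))

/-- `w = R + C` -/
def chk1 (r F E A c : ℕ) : Bool :=
  Nat.blt 0 ((256 - F) * r + 256 * c) &&
  (Nat.ble (F * r * 1099511627776) (A * ((r + c) * ((256 - F) * r + 256 * c))) &&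
    Nat.ble (((256 - F) * r + 256 * c) * 18446744073709551616)
      (esL (F * r * c * 1099511627776 / ((r + c) * ((256 - F) * r + 256 * c))) (A * 1048576) *
        (E * 256 * (r + c))))

/-- `w = R - C` -/
def chk2 (r G E A c : ℕ) : Bool :=
  Nat.ble (G * r * 18446744073709551616)
      (esL (A * (r - 2097152)) 0 * (E * 268435456) + 268435456 * 18446744073709551616) &&
  (Nat.ble (A * (G * r)) 1125899906842624 ||
    (Nat.blt ((256 - G) * r) (256 * c) && (Nat.blt c r &&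
      (Nat.ble (256 * c - (256 - G) * r) (256 * (r - c)) &&
        (Nat.ble (G * r * 1099511627776) (A * ((256 * c - (256 - G) * r) * (r - c))) &&
          Nat.ble ((256 * c - (256 - G) * r) * 18446744073709551616)
            (esL (A * (256 - G) * r / 256 + G * r * 1099511627776 / (256 * (r - c)))
              (A * 1048576) * (E * (256 * (r - c)))))))))

/-- `|w| = 1` -/
def chk3 (r G E A c : ℕ) : Bool :=
  Nat.ble r (c + 1048576) &&
  (Nat.blt ((256 - G) * (G * (r * r) - 281474976710656)) (256 * (G * (c * c))) &&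
    ev (256 * (G * (c * c)) - (256 - G) * (G * (r * r) - 281474976710656)) fun Y =>
      Nat.ble (256 * (G * c) * 1099511627776) (A * Y) &&
        ev (esL (A * (r - 2097152) + 256 * (G * c) * (c + 1048576 - r) * 1099511627776 / Y) 0 * E)
          fun T => Nat.ble (Y * 340282366920938463463374607431768211456)
            (T * T * 72057594037927936))

/-- the list of cells, `F` to `1` -/
def chk (r : ℕ) : ℕ → List (ℕ × ℕ × ℕ × ℕ × ℕ × ℕ) → Bool
  | F, [] => Nat.beq F 256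
  | F, (G, E, A, c1, c2, c3) :: t =>
    (chk0 r F G E && (chk1 r F E A c1 && (chk2 r G E A c2 && chk3 r G E A c3))) && chk r G t

/-- the exact sum `∑ (G - F) E^N` over the cells with `G > s` -/
def tot (N s : ℕ) : ℕ → List (ℕ × ℕ × ℕ × ℕ × ℕ × ℕ) → ℕ
  | _, [] => 0
  | F, (G, E, _, _, _, _) :: t => (bif Nat.blt s G then (G - F) * E ^ N else 0) + tot N s G t

/-- upper bound (mantissa `2^40`) of `((N+1)/R) ∫_{(g/64) R}^R |q|` -/
def vt (N g F : ℕ) (rows : List (ℕ × ℕ × ℕ × ℕ × ℕ × ℕ)) : ℕ :=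
  ((N + 1) * tot N (4 * g) F rows * 4294967296) / 16777216 ^ N + 1

theorem chk1_sound {r F G E A c : ℕ} (h0 : chk0 r F G E = true) (h : chk1 r F E A c = true) :
    ∀ C : ℝ, 0 ≤ C → ((1 - (F : ℝ) / 256) * (r / 2 ^ 20) + C) / (r / 2 ^ 20 + C) ≤
      Real.exp (Real.log (E / 2 ^ 24) + (A : ℝ) / 2 ^ 20 * (C - 1)) := by
  unfold chk0 at h0
  unfold chk1 at h
  simp only [Bool.and_eq_true] at h0 h
  obtain ⟨a1, a2, a3, a4, a5, a6, a7⟩ := h0
  obtain ⟨b1, b2, b3⟩ := h
  have a1 := Nat.le_of_ble_eq_true a1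
  have a2 : 0 < F := Nat.blt_eq.mp a2
  have a3 : F < G := Nat.blt_eq.mp a3
  have a4 := Nat.le_of_ble_eq_true a4
  have a6 : 0 < E := Nat.blt_eq.mp a6
  have b1 : 0 < (256 - F) * r + 256 * c := Nat.blt_eq.mp b1
  have b2 := Nat.le_of_ble_eq_true b2
  have b3 := Nat.le_of_ble_eq_true b3
  obtain ⟨L, hL⟩ : ∃ L, L = esL (F * r * c * 1099511627776 /
    ((r + c) * ((256 - F) * r + 256 * c))) (A * 1048576) := ⟨_, rfl⟩
  rw [← hL] at b3
  have hLs := esL_spec (F * r * c * 1099511627776 /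
    ((r + c) * ((256 - F) * r + 256 * c))) (A * 1048576)
  rw [← hL] at hLs
  have hdiv := div_le_real (F * r * c * 1099511627776) ((r + c) * ((256 - F) * r + 256 * c))
  have hF : F ≤ 256 := by omega
  have b1' : ((0 : ℕ) : ℝ) < (((256 - F) * r + 256 * c : ℕ) : ℝ) := by exact_mod_cast b1
  have b2' : ((F * r * 1099511627776 : ℕ) : ℝ) ≤
    ((A * ((r + c) * ((256 - F) * r + 256 * c)) : ℕ) : ℝ) := by exact_mod_cast b2
  have b3' : ((((256 - F) * r + 256 * c) * 18446744073709551616 : ℕ) : ℝ) ≤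
    ((L * (E * 256 * (r + c)) : ℕ) : ℝ) := by exact_mod_cast b3
  push_cast [Nat.cast_sub hF] at b1' b2' b3' hdiv hLs
  have hr : (2097152 : ℝ) ≤ r := by exact_mod_cast a1
  have hE : (0 : ℝ) < E := by exact_mod_cast a6
  have hF0 : (0 : ℝ) < F := by exact_mod_cast a2
  have hF1 : (F : ℝ) ≤ 256 := by exact_mod_cast hF
  have hc : (0 : ℝ) ≤ c := Nat.cast_nonneg c
  have hA : (0 : ℝ) ≤ A := Nat.cast_nonneg A
  obtain ⟨Z, hZ⟩ : ∃ Z : ℝ, Z = (256 - (F : ℝ)) * r + 256 * c := ⟨_, rfl⟩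
  rw [← hZ] at b1' b2' b3' hdiv
  have hZe : (1 - (F : ℝ) / 256) * (r / 2 ^ 20) + c / 2 ^ 20 = Z / (256 * 2 ^ 20) := by
    rw [hZ]; ring
  have hrc : (r : ℝ) / 2 ^ 20 + c / 2 ^ 20 = (r + c) / 2 ^ 20 := by ring
  have hrc0 : (0 : ℝ) < r + c := by linarith
  have hs : (F : ℝ) / 256 * (r / 2 ^ 20) / (((r : ℝ) / 2 ^ 20 + c / 2 ^ 20) *
      ((1 - (F : ℝ) / 256) * (r / 2 ^ 20) + c / 2 ^ 20)) = F * r * 2 ^ 20 / ((r + c) * Z) := by
    rw [hZe, hrc]
    field_simp
  apply h1_of (R := (r : ℝ) / 2 ^ 20) (f := (F : ℝ) / 256) (c := (c : ℝ) / 2 ^ 20)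
  · positivity
  · positivity
  · positivity
  · rw [hZe]
    positivity
  · rw [hs, div_le_div_iff₀ (by positivity) (by positivity)]
    linarith
  · rw [hs, hZe, hrc]
    have e1 : Z / (256 * 2 ^ 20) / ((r + c) / 2 ^ 20) = Z / (256 * ((r : ℝ) + c)) := by
      field_simp
    have e2 : Real.log ((E : ℝ) / 2 ^ 24) - A / 2 ^ 20 +
        F * r * 2 ^ 20 / ((r + c) * Z) * (c / 2 ^ 20) =
        Real.log ((E : ℝ) / 2 ^ 24) + (F * r * c * 1099511627776 / ((r + c) * Z) / 2 ^ 40 -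
          A * 1048576 / 2 ^ 40) := by
      field_simp
      ring
    rw [e1, e2, Real.exp_add, Real.exp_log (by positivity)]
    have e3 : (L : ℝ) / 2 ^ 40 ≤ Real.exp (F * r * c * 1099511627776 / ((r + c) * Z) / 2 ^ 40 -
          A * 1048576 / 2 ^ 40) := by
      refine hLs.trans (Real.exp_le_exp.2 ?_)
      have := div_le_div_of_nonneg_right hdiv (by positivity : (0 : ℝ) ≤ 2 ^ 40)
      linarith
    refine le_trans ?_ (mul_le_mul_of_nonneg_left e3 (by positivity))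
    rw [div_mul_div_comm, div_le_div_iff₀ (by positivity) (by positivity)]
    linarith

theorem chk2_sound {r F G E A c : ℕ} (h0 : chk0 r F G E = true) (h : chk2 r G E A c = true) :
    ∀ C : ℝ, (1 - (G : ℝ) / 256) * (r / 2 ^ 20) ≤ C → C ≤ (r : ℝ) / 2 ^ 20 - 1 →
      (C - (1 - (G : ℝ) / 256) * (r / 2 ^ 20)) / (r / 2 ^ 20 - C) ≤
      Real.exp (Real.log (E / 2 ^ 24) + (A : ℝ) / 2 ^ 20 * (C - 1)) := by
  unfold chk0 at h0
  unfold chk2 at h
  simp only [Bool.and_eq_true, Bool.or_eq_true] at h0 h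
  obtain ⟨a1, a2, a3, a4, a5, a6, a7⟩ := h0
  obtain ⟨b1, b2⟩ := h
  have a1 := Nat.le_of_ble_eq_true a1
  have a2 : 0 < F := Nat.blt_eq.mp a2
  have a3 : F < G := Nat.blt_eq.mp a3
  have a4 := Nat.le_of_ble_eq_true a4
  have a6 : 0 < E := Nat.blt_eq.mp a6
  have b1 := Nat.le_of_ble_eq_true b1
  have hr : (2097152 : ℝ) ≤ r := by exact_mod_cast a1
  have hE : (0 : ℝ) < E := by exact_mod_cast a6
  have hG0 : (0 : ℝ) < G := by exact_mod_cast (by omega : 0 < G)
  have hG1 : (G : ℝ) ≤ 256 := by exact_mod_cast a4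
  have hA : (0 : ℝ) ≤ A := Nat.cast_nonneg A
  have hR2 : (2 : ℝ) ≤ (r : ℝ) / 2 ^ 20 := by
    rw [le_div_iff₀ (by positivity)]
    linarith
  -- the corner
  have he : (G : ℝ) / 256 * (r / 2 ^ 20) - 1 ≤
      Real.exp (Real.log (E / 2 ^ 24) + (A : ℝ) / 2 ^ 20 * (r / 2 ^ 20 - 2)) := by
    obtain ⟨L, hL⟩ : ∃ L, L = esL (A * (r - 2097152)) 0 := ⟨_, rfl⟩
    rw [← hL] at b1
    have hLs := esL_spec (A * (r - 2097152)) 0
    rw [← hL] at hLs
    have b1' : ((G * r * 18446744073709551616 : ℕ) : ℝ) ≤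
      ((L * (E * 268435456) + 268435456 * 18446744073709551616 : ℕ) : ℝ) := by exact_mod_cast b1
    push_cast [Nat.cast_sub a1] at b1' hLs
    rw [Real.exp_add, Real.exp_log (by positivity)]
    have e3 : (L : ℝ) / 2 ^ 40 ≤ Real.exp ((A : ℝ) / 2 ^ 20 * (r / 2 ^ 20 - 2)) := by
      refine hLs.trans (le_of_eq ?_)
      congr 1
      ring
    refine le_trans ?_ (mul_le_mul_of_nonneg_left e3 (by positivity))
    rw [div_mul_div_comm, div_mul_div_comm, sub_le_iff_le_add, ← sub_nonneg]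
    have e4 : (E : ℝ) * L / (2 ^ 24 * 2 ^ 40) + 1 - G * r / (256 * 2 ^ 20) =
      (L * (E * 268435456) + 268435456 * 18446744073709551616 - G * r * 18446744073709551616) /
        (2 ^ 92) := by
      ring
    rw [e4]
    apply div_nonneg (by linarith) (by positivity)
  rcases b2 with b2 | ⟨b2, b3, b4, b5, b6⟩
  · have b2 := Nat.le_of_ble_eq_true b2
    have b2' : ((A * (G * r) : ℕ) : ℝ) ≤ ((1125899906842624 : ℕ) : ℝ) := by exact_mod_cast b2
    push_cast at b2'
    apply h2_of_small hR2 (by positivity) (by positivity) _ he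
    have : (A : ℝ) / 2 ^ 20 * ((G : ℝ) / 256 * (r / 2 ^ 20)) = A * (G * r) / 2 ^ 48 := by ring
    rw [this, div_le_iff₀ (by positivity)]
    linarith
  · have b2 : (256 - G) * r < 256 * c := Nat.blt_eq.mp b2
    have b3 : c < r := Nat.blt_eq.mp b3
    have b4 := Nat.le_of_ble_eq_true b4
    have b5 := Nat.le_of_ble_eq_true b5
    have b6 := Nat.le_of_ble_eq_true b6
    obtain ⟨L, hL⟩ : ∃ L, L = esL (A * (256 - G) * r / 256 +
      G * r * 1099511627776 / (256 * (r - c))) (A * 1048576) := ⟨_, rfl⟩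
    rw [← hL] at b6
    have hLs := esL_spec (A * (256 - G) * r / 256 +
      G * r * 1099511627776 / (256 * (r - c))) (A * 1048576)
    rw [← hL] at hLs
    have hd1 := div_le_real (A * (256 - G) * r) 256
    have hd2 := div_le_real (G * r * 1099511627776) (256 * (r - c))
    have b2' : (((256 - G) * r : ℕ) : ℝ) < ((256 * c : ℕ) : ℝ) := by exact_mod_cast b2
    have b3' : (c : ℝ) < r := by exact_mod_cast b3
    have b4' : ((256 * c - (256 - G) * r : ℕ) : ℝ) ≤ ((256 * (r - c) : ℕ) : ℝ) := by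
      exact_mod_cast b4
    have b5' : ((G * r * 1099511627776 : ℕ) : ℝ) ≤
      ((A * ((256 * c - (256 - G) * r) * (r - c)) : ℕ) : ℝ) := by exact_mod_cast b5
    have b6' : (((256 * c - (256 - G) * r) * 18446744073709551616 : ℕ) : ℝ) ≤
      ((L * (E * (256 * (r - c))) : ℕ) : ℝ) := by exact_mod_cast b6
    push_cast [Nat.cast_sub a4, Nat.cast_sub b2.le, Nat.cast_sub b3.le] at b2' b4' b5' b6' hLs hd1 hd2
    obtain ⟨P, hP⟩ : ∃ P : ℝ, P = 256 * c - (256 - (G : ℝ)) * r := ⟨_, rfl⟩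
    rw [← hP] at b4' b5' b6'
    have hP0 : 0 < P := by rw [hP]; linarith
    have hrc0 : (0 : ℝ) < r - c := by linarith
    have hPe : (c : ℝ) / 2 ^ 20 - (1 - (G : ℝ) / 256) * (r / 2 ^ 20) = P / (256 * 2 ^ 20) := by
      rw [hP]; ring
    have hrc : (r : ℝ) / 2 ^ 20 - c / 2 ^ 20 = (r - c) / 2 ^ 20 := by ring
    apply h2_of_tan (c := (c : ℝ) / 2 ^ 20) hR2 (by positivity) _ _ _ _ he
    · rw [← sub_pos, hPe]
      positivity
    · rw [hPe, hrc, div_le_div_iff₀ (by positivity) (by positivity)]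
      linarith
    · rw [hPe, hrc]
      have : (G : ℝ) / 256 * (r / 2 ^ 20) / (P / (256 * 2 ^ 20) * ((r - c) / 2 ^ 20)) =
          G * r * 2 ^ 20 / (P * (r - c)) := by
        field_simp
      rw [this, div_le_div_iff₀ (by positivity) (by positivity)]
      linarith
    · rw [hPe, hrc]
      have e1 : P / (256 * 2 ^ 20) / ((r - c) / 2 ^ 20) = P / (256 * ((r : ℝ) - c)) := by
        field_simp
      have e2 : (G : ℝ) / 256 * (r / 2 ^ 20) / (P / (256 * 2 ^ 20) * ((r - c) / 2 ^ 20)) *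
          (P / (256 * 2 ^ 20)) = G * r / (256 * (r - c)) := by
        field_simp
      rw [e1, e2, add_assoc, Real.exp_add, Real.exp_log (by positivity)]
      have e3 : (L : ℝ) / 2 ^ 40 ≤ Real.exp ((A : ℝ) / 2 ^ 20 *
          ((1 - (G : ℝ) / 256) * (r / 2 ^ 20) - 1) + G * r / (256 * (r - c))) := by
        refine hLs.trans (Real.exp_le_exp.2 ?_)
        have e4 : (A : ℝ) / 2 ^ 20 * ((1 - (G : ℝ) / 256) * (r / 2 ^ 20) - 1) +
            G * r / (256 * (r - c)) = (A * (256 - G) * r / 256 +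
              G * r * 1099511627776 / (256 * (r - c))) / 2 ^ 40 - A * 1048576 / 2 ^ 40 := by
          field_simp
          ring
        rw [e4]
        have := div_le_div_of_nonneg_right (add_le_add hd1 hd2) (by positivity : (0 : ℝ) ≤ 2 ^ 40)
        linarith
      refine le_trans ?_ (mul_le_mul_of_nonneg_left e3 (by positivity))
      rw [div_mul_div_comm, div_le_div_iff₀ (by positivity) (by positivity)]
      linarith

theorem chk3_sound {r F G E A c : ℕ} (h0 : chk0 r F G E = true) (h : chk3 r G E A c = true) :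
    ∀ C : ℝ, (r : ℝ) / 2 ^ 20 - 1 ≤ C →
      (1 - (G : ℝ) / 256) * (1 - G / 256 * (r / 2 ^ 20) ^ 2) + G / 256 * C ^ 2 ≤
      Real.exp (Real.log (E / 2 ^ 24) + (A : ℝ) / 2 ^ 20 * (C - 1)) ^ 2 := by
  unfold chk0 at h0
  unfold chk3 at h
  simp only [Bool.and_eq_true, ev_eq] at h0 h
  obtain ⟨a1, a2, a3, a4, a5, a6, a7⟩ := h0
  obtain ⟨b1, b2, b3, b4⟩ := h
  have a1 := Nat.le_of_ble_eq_true a1
  have a2 : 0 < F := Nat.blt_eq.mp a2
  have a3 : F < G := Nat.blt_eq.mp a3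
  have a4 := Nat.le_of_ble_eq_true a4
  have a5 := Nat.le_of_ble_eq_true a5
  have a6 : 0 < E := Nat.blt_eq.mp a6
  have b1 := Nat.le_of_ble_eq_true b1
  have b2 : (256 - G) * (G * (r * r) - 281474976710656) < 256 * (G * (c * c)) := Nat.blt_eq.mp b2
  have b3 := Nat.le_of_ble_eq_true b3
  have b4 := Nat.le_of_ble_eq_true b4
  obtain ⟨Y, hY⟩ : ∃ Y, Y = 256 * (G * (c * c)) - (256 - G) * (G * (r * r) - 281474976710656) :=
    ⟨_, rfl⟩
  rw [← hY] at b3 b4
  obtain ⟨L, hL⟩ : ∃ L, L = esL (A * (r - 2097152) +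
    256 * (G * c) * (c + 1048576 - r) * 1099511627776 / Y) 0 := ⟨_, rfl⟩
  rw [← hL] at b4
  have hLs := esL_spec (A * (r - 2097152) +
    256 * (G * c) * (c + 1048576 - r) * 1099511627776 / Y) 0
  rw [← hL] at hLs
  have hdiv := div_le_real (256 * (G * c) * (c + 1048576 - r) * 1099511627776) Y
  have hr : (2097152 : ℝ) ≤ r := by exact_mod_cast a1
  have hE : (0 : ℝ) < E := by exact_mod_cast a6
  have hG0 : (0 : ℝ) < G := by exact_mod_cast (by omega : 0 < G)
  have hG1 : (G : ℝ) ≤ 256 := by exact_mod_cast a4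
  have hA : (0 : ℝ) ≤ A := Nat.cast_nonneg A
  have hYr : (Y : ℝ) = 256 * (G * (c * c)) - (256 - G) * (G * (r * r) - 281474976710656) := by
    rw [hY]
    push_cast [Nat.cast_sub b2.le, Nat.cast_sub a4, Nat.cast_sub a5]
    ring
  have hY0 : (0 : ℝ) < Y := by
    have : 0 < Y := by omega
    exact_mod_cast this
  have a5' : ((281474976710656 : ℕ) : ℝ) ≤ ((G * (r * r) : ℕ) : ℝ) := by exact_mod_cast a5
  have b1' : (r : ℝ) ≤ ((c + 1048576 : ℕ) : ℝ) := by exact_mod_cast b1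
  have b3' : ((256 * (G * c) * 1099511627776 : ℕ) : ℝ) ≤ ((A * Y : ℕ) : ℝ) := by exact_mod_cast b3
  have b4' : ((Y * 340282366920938463463374607431768211456 : ℕ) : ℝ) ≤
    ((L * E * (L * E) * 72057594037927936 : ℕ) : ℝ) := by exact_mod_cast b4
  push_cast [Nat.cast_sub a1, Nat.cast_sub b1] at a5' b1' b3' b4' hLs hdiv
  clear a1 a5 b1 b2 b3 b4 hL hY a4 a7
  have hYe : (G : ℝ) / 256 * ((c : ℝ) / 2 ^ 20) ^ 2 -
      (1 - (G : ℝ) / 256) * ((G : ℝ) / 256 * (r / 2 ^ 20) ^ 2 - 1) = Y / (65536 * 2 ^ 40) := by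
    rw [hYr]
    ring
  have hse : (G : ℝ) / 256 * ((c : ℝ) / 2 ^ 20) / (Y / (65536 * 2 ^ 40)) =
      256 * (G * c) * 2 ^ 20 / Y := by
    field_simp
    ring
  apply h3_of (c := (c : ℝ) / 2 ^ 20)
  · rw [le_div_iff₀ (by positivity)]
    linarith
  · positivity
  · rw [div_le_one (by norm_num)]
    exact hG1
  · have : (G : ℝ) / 256 * (r / 2 ^ 20) ^ 2 = G * (r * r) / 281474976710656 := by ring
    rw [this, le_div_iff₀ (by norm_num)]
    linarith
  · rw [div_sub_one (by positivity), div_le_div_iff_of_pos_right (by positivity)]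
    linarith
  · rw [hYe]
    positivity
  · rw [hYe, hse, div_le_div_iff₀ (by positivity) (by positivity)]
    linarith
  · rw [hYe, hse, add_assoc, Real.exp_add, Real.exp_log (by positivity)]
    have e3 : (L : ℝ) / 2 ^ 40 ≤ Real.exp ((A : ℝ) / 2 ^ 20 * (r / 2 ^ 20 - 2) +
        256 * (G * c) * 2 ^ 20 / Y * (c / 2 ^ 20 - (r / 2 ^ 20 - 1))) := by
      refine hLs.trans (Real.exp_le_exp.2 ?_)
      have e4 : (A : ℝ) / 2 ^ 20 * (r / 2 ^ 20 - 2) +
        256 * (G * c) * 2 ^ 20 / Y * (c / 2 ^ 20 - (r / 2 ^ 20 - 1)) =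
        (A * (r - 2097152) + 256 * (G * c) * (c + 1048576 - r) * 1099511627776 / Y) / 2 ^ 40 -
          0 / 2 ^ 40 := by
        field_simp
        ring
      rw [e4]
      have := div_le_div_of_nonneg_right hdiv (by positivity : (0 : ℝ) ≤ 2 ^ 40)
      have e5 : ((A : ℝ) * (r - 2097152) +
          256 * (G * c) * (c + 1048576 - r) * 1099511627776 / Y) / 2 ^ 40 =
        A * (r - 2097152) / 2 ^ 40 +
          256 * (G * c) * (c + 1048576 - r) * 1099511627776 / Y / 2 ^ 40 := by ring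
      rw [e5]
      have e6 : (A : ℝ) * (r - 2097152) / 2 ^ 40 = A * (r - 2097152) / 2 ^ 40 := rfl
      linarith
    have hEp : (0 : ℝ) < (E : ℝ) / 2 ^ 24 := by positivity
    refine le_trans ?_ (pow_le_pow_left₀ (by positivity) (mul_le_mul_of_nonneg_left e3 hEp.le) 2)
    rw [div_mul_div_comm, div_pow, div_le_div_iff₀ (by positivity) (by positivity)]
    have : ((E : ℝ) * L) ^ 2 = L * E * (L * E) := by ring
    rw [this]
    linarith

theorem cell_sound {r F G E A c1 c2 c3 : ℕ}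
    (h : (chk0 r F G E && (chk1 r F E A c1 && (chk2 r G E A c2 && chk3 r G E A c3))) = true) :
    CellOK ((r : ℝ) / 2 ^ 20) (F / 256) (G / 256) (Real.log (E / 2 ^ 24)) (A / 2 ^ 20) := by
  simp only [Bool.and_eq_true] at h
  obtain ⟨h0, h1, h2, h3⟩ := h
  have k1 := chk1_sound h0 h1
  have k2 := chk2_sound h0 h2
  have k3 := chk3_sound h0 h3
  unfold chk0 at h0
  simp only [Bool.and_eq_true] at h0
  obtain ⟨a1, a2, a3, a4, a5, a6, a7⟩ := h0
  have a1 := Nat.le_of_ble_eq_true a1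
  have a2 : 0 < F := Nat.blt_eq.mp a2
  have a3 : F < G := Nat.blt_eq.mp a3
  have a4 := Nat.le_of_ble_eq_true a4
  have a5 := Nat.le_of_ble_eq_true a5
  have a5' : ((281474976710656 : ℕ) : ℝ) ≤ ((G * (r * r) : ℕ) : ℝ) := by exact_mod_cast a5
  push_cast at a5'
  refine ⟨?_, ?_, ?_, ?_, ?_, ?_, k1, k2, k3⟩
  · rw [le_div_iff₀ (by positivity)]
    have : (2097152 : ℝ) ≤ r := by exact_mod_cast a1
    linarith
  · have : (0 : ℝ) < F := by exact_mod_cast a2
    positivity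
  · apply div_le_div_of_nonneg_right _ (by norm_num)
    exact_mod_cast a3.le
  · rw [div_le_one (by norm_num)]
    exact_mod_cast a4
  · have : (G : ℝ) / 256 * (r / 2 ^ 20) ^ 2 = G * (r * r) / 281474976710656 := by ring
    rw [this, le_div_iff₀ (by norm_num)]
    linarith
  · positivity

end Pool.Agent.Lib.MP_af3a4a_an.P1.H21
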