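import Pool.Agent.Lib.MP_af3a4a_an.P1.H21.VT3

/-!
# VTAIL, part 4: the integral over `[(g/64) R, R]` (helper21, council 2)
-/

set_option autoImplicit false

namespace Pool.Agent.Lib.MP_af3a4a_an.P1.H21

open MeasureTheory
open Pool.Agent.Lib.MP_af3a4a_an.SV (uu av)
open Pool.Agent.Lib.MP_af3a4a_an.P1.H80
open Pool.Agent.Lib.MP_af3a4a_an.P1.CHK.Arith

theorem tot_sound {r : ℕ} {R : ℝ} (hR : (r : ℝ) / 2 ^ 20 ≤ R) (hRp : 0 < R)
    {N : ℕ} {w : Fin N → ℂ} (hw : ∀ k, 1 ≤ ‖w k‖) (ht : ∑ k, ‖w k - (R : ℂ)‖ ≤ N) {s : ℕ}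
    (hs : s ≤ 256) :
    ∀ (rows : List (ℕ × ℕ × ℕ × ℕ × ℕ × ℕ)) (F : ℕ), chk r F rows = true →
      F ≤ 256 ∧ ∫ x in ((max s F : ℕ) / 256 * R)..R, ‖qq (uu w) x‖ ≤
        R * ((tot N s F rows : ℕ) / (256 * (2 ^ 24) ^ N)) := by
  intro rows
  induction rows with
  | nil =>
    intro F h
    unfold chk at h
    have h : F = 256 := Nat.eq_of_beq_eq_true h
    subst h
    refine ⟨le_refl _, ?_⟩
    rw [max_eq_right hs]
    have e : ((256 : ℕ) : ℝ) / 256 * R = R := by push_cast; ring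
    rw [e, intervalIntegral.integral_same]
    unfold tot
    simp
  | cons row t ih =>
    intro F h
    obtain ⟨G, E, A, c1, c2, c3⟩ := row
    unfold chk at h
    rw [Bool.and_eq_true] at h
    obtain ⟨h1, h2⟩ := h
    obtain ⟨hG, hI⟩ := ih G h2
    have hcell := cell_sound h1
    have hFG : F < G ∧ 0 < E := by
      simp only [Bool.and_eq_true] at h1
      obtain ⟨h0, -⟩ := h1
      unfold chk0 at h0
      simp only [Bool.and_eq_true] at h0
      obtain ⟨a1, a2, a3, a4, a5, a6, a7⟩ := h0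
      exact ⟨Nat.blt_eq.mp a3, Nat.blt_eq.mp a6⟩
    refine ⟨by omega, ?_⟩
    rcases Nat.lt_or_ge s G with hsG | hsG
    · have hb : Nat.blt s G = true := Nat.blt_eq.mpr hsG
      have e1 : tot N s F ((G, E, A, c1, c2, c3) :: t) = (G - F) * E ^ N + tot N s G t := by
        rw [tot, hb, cond_true]
      rw [e1]
      rw [max_eq_right hsG.le] at hI
      have hcont : Continuous fun x => ‖qq (uu w) x‖ := (qq_cont _).norm
      have k1 := hcell.int_le hR hw ht
      have hmF : (F : ℝ) / 256 * R ≤ ((max s F : ℕ) : ℝ) / 256 * R := by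
        apply mul_le_mul_of_nonneg_right _ hRp.le
        apply div_le_div_of_nonneg_right _ (by norm_num)
        exact_mod_cast le_max_right s F
      have hmG : ((max s F : ℕ) : ℝ) / 256 * R ≤ (G : ℝ) / 256 * R := by
        apply mul_le_mul_of_nonneg_right _ hRp.le
        apply div_le_div_of_nonneg_right _ (by norm_num)
        exact_mod_cast max_le hsG.le hFG.1.le
      have k2 : ∫ x in (((max s F : ℕ) : ℝ) / 256 * R)..((G : ℝ) / 256 * R), ‖qq (uu w) x‖ ≤
          ∫ x in ((F : ℝ) / 256 * R)..((G : ℝ) / 256 * R), ‖qq (uu w) x‖ := by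
        rw [← intervalIntegral.integral_add_adjacent_intervals
          (hcont.intervalIntegrable ((F : ℝ) / 256 * R) (((max s F : ℕ) : ℝ) / 256 * R))
          (hcont.intervalIntegrable _ _)]
        have := intervalIntegral.integral_nonneg (μ := volume) (f := fun x => ‖qq (uu w) x‖)
          hmF (fun x _ => norm_nonneg _)
        linarith
      rw [← intervalIntegral.integral_add_adjacent_intervals
        (hcont.intervalIntegrable (((max s F : ℕ) : ℝ) / 256 * R) ((G : ℝ) / 256 * R))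
        (hcont.intervalIntegrable _ _)]
      have hEp : (0 : ℝ) < E := by exact_mod_cast hFG.2
      rw [Real.exp_log (by positivity)] at k1
      have e2 : R * ((((G - F) * E ^ N + tot N s G t : ℕ) : ℝ) / (256 * (2 ^ 24) ^ N)) =
          ((G : ℝ) / 256 - F / 256) * R * (E / 2 ^ 24) ^ N +
            R * ((tot N s G t : ℕ) / (256 * (2 ^ 24) ^ N)) := by
        push_cast [Nat.cast_sub hFG.1.le]
        rw [div_pow]
        field_simp
      rw [e2]
      linarith
    · have hb : Nat.blt s G = false := by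
        rw [Bool.eq_false_iff, ne_eq, Nat.blt_eq]
        omega
      have e1 : tot N s F ((G, E, A, c1, c2, c3) :: t) = tot N s G t := by
        rw [tot, hb, cond_false, zero_add]
      rw [e1]
      have e2 : max s F = max s G := by omega
      rw [e2]
      exact hI

/-- `(N+1) E^N` is decreasing -/
theorem tot_mono {r : ℕ} {N₀ N s : ℕ} (h0 : 6 ≤ N₀) (hN : N₀ ≤ N) :
    ∀ (rows : List (ℕ × ℕ × ℕ × ℕ × ℕ × ℕ)) (F : ℕ), chk r F rows = true →
      ((N : ℝ) + 1) * ((tot N s F rows : ℕ) / (2 ^ 24) ^ N) ≤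
        ((N₀ : ℝ) + 1) * ((tot N₀ s F rows : ℕ) / (2 ^ 24) ^ N₀) := by
  have key : ∀ (e : ℝ), 0 ≤ e → e ≤ 7 / 8 → ((N : ℝ) + 1) * e ^ N ≤ ((N₀ : ℝ) + 1) * e ^ N₀ := by
    intro e he0 he1
    induction N, hN using Nat.le_induction with
    | base => exact le_refl _
    | succ n hn ih =>
      refine le_trans ?_ ih
      have h6 : (6 : ℝ) ≤ n := by exact_mod_cast h0.trans hn
      rw [pow_succ]
      push_cast
      have h7 : ((n : ℝ) + 1 + 1) * e ≤ n + 1 := by nlinarith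
      have h8 := mul_le_mul_of_nonneg_right h7 (pow_nonneg he0 n)
      nlinarith
  intro rows
  induction rows with
  | nil =>
    intro F _
    unfold tot
    simp
  | cons row t ih =>
    intro F h
    obtain ⟨G, E, A, c1, c2, c3⟩ := row
    unfold chk at h
    rw [Bool.and_eq_true] at h
    obtain ⟨h1, h2⟩ := h
    have hI := ih G h2
    have hE : E ≤ 14680064 := by
      simp only [Bool.and_eq_true] at h1
      obtain ⟨h0, -⟩ := h1
      unfold chk0 at h0
      simp only [Bool.and_eq_true] at h0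
      obtain ⟨a1, a2, a3, a4, a5, a6, a7⟩ := h0
      exact Nat.le_of_ble_eq_true a7
    have hE' : (E : ℝ) ≤ 14680064 := by exact_mod_cast hE
    have hk := key ((E : ℝ) / 2 ^ 24) (by positivity) (by
      rw [div_le_iff₀ (by positivity)]
      linarith)
    rw [div_pow, div_pow] at hk
    rw [tot, tot]
    cases Nat.blt s G with
    | false =>
      rw [cond_false, cond_false, zero_add, zero_add]
      exact hI
    | true =>
      rw [cond_true, cond_true]
      push_cast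
      have hGF : (0 : ℝ) ≤ ((G - F : ℕ) : ℝ) := Nat.cast_nonneg _
      have h3 := mul_le_mul_of_nonneg_left hk hGF
      have e1 : ∀ (a b c d x : ℝ), a * ((b * c + d) / x) = b * (a * (c / x)) + a * (d / x) := by
        intro a b c d x
        ring
      rw [e1, e1]
      linarith

/-- **The tail**: `((N+1)/R) ∫_{(g/64) R}^R |q| ≤ vt / 2^40`. -/
theorem vt_sound {r F : ℕ} {rows : List (ℕ × ℕ × ℕ × ℕ × ℕ × ℕ)} (hc : chk r F rows = true)
    {N₀ N g : ℕ} (h0 : 6 ≤ N₀) (hN : N₀ ≤ N) (hg : F ≤ 4 * g) (hg1 : g ≤ 64) {R : ℝ}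
    (hR : (r : ℝ) / 2 ^ 20 ≤ R) (hRp : 0 < R) {w : Fin N → ℂ} (hw : ∀ k, 1 ≤ ‖w k‖)
    (ht : ∑ k, ‖w k - (R : ℂ)‖ ≤ N) :
    ((N : ℝ) + 1) / R * ∫ x in ((g : ℝ) / 64 * R)..R, ‖qq (uu w) x‖ ≤
      (vt N₀ g F rows : ℕ) / 2 ^ 40 := by
  obtain ⟨-, h1⟩ := tot_sound hR hRp hw ht (by omega : 4 * g ≤ 256) rows F hc
  rw [max_eq_left hg] at h1
  have e0 : ((4 * g : ℕ) : ℝ) / 256 * R = (g : ℝ) / 64 * R := by push_cast; ring
  rw [e0] at h1
  have h2 := tot_mono (s := 4 * g) h0 hN rows F hc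
  have h3 : ((N : ℝ) + 1) / R * ∫ x in ((g : ℝ) / 64 * R)..R, ‖qq (uu w) x‖ ≤
      ((N : ℝ) + 1) / R * (R * ((tot N (4 * g) F rows : ℕ) / (256 * (2 ^ 24) ^ N))) :=
    mul_le_mul_of_nonneg_left h1 (by positivity)
  have e1 : ((N : ℝ) + 1) / R * (R * ((tot N (4 * g) F rows : ℕ) / (256 * (2 ^ 24) ^ N))) =
      ((N : ℝ) + 1) * ((tot N (4 * g) F rows : ℕ) / (2 ^ 24) ^ N) / 256 := by
    field_simp
  have h4 := div_le_div_of_nonneg_right h2 (by norm_num : (0 : ℝ) ≤ 256)
  have h5 : ((N₀ : ℝ) + 1) * ((tot N₀ (4 * g) F rows : ℕ) / (2 ^ 24) ^ N₀) / 256 ≤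
      (vt N₀ g F rows : ℕ) / 2 ^ 40 := by
    have h6 := real_le_div ((N₀ + 1) * tot N₀ (4 * g) F rows * 4294967296) (16777216 ^ N₀)
      (by positivity)
    have h7 : ((vt N₀ g F rows : ℕ) : ℝ) = (((N₀ + 1) * tot N₀ (4 * g) F rows * 4294967296 /
      16777216 ^ N₀ + 1 : ℕ) : ℝ) := by
      rfl
    rw [h7]
    have h8 := div_le_div_of_nonneg_right h6 (by positivity : (0 : ℝ) ≤ 2 ^ 40)
    refine le_trans (le_of_eq ?_) h8
    push_cast
    have e2 : (16777216 : ℝ) = 2 ^ 24 := by norm_num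
    rw [e2]
    field_simp
    ring
  rw [e1] at h3
  exact (h3.trans h4).trans h5

end Pool.Agent.Lib.MP_af3a4a_an.P1.H21
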